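import Pool.Agent.L0h17.WT.Stm2
import Pool.Agent.L0h6.WT.CRO

/-!
# Project WT (helper17), module PCR: the exponent `-1` of a product in disjoint variables
-/

set_option autoImplicit false

namespace Pool.Agent.L0h55.WT

open MvPolynomial Pool.Agent.N103.V Pool.Agent.N103

/-- a prime factor through a zero -/
theorem exists_prime_factor {σ : Type} (F : MvPolynomial σ ℂ) (p : σ → ℂ) (hF : F ≠ 0)
    (hp : eval p F = 0) : ∃ a : MvPolynomial σ ℂ, Prime a ∧ a ∣ F ∧ eval p a = 0 := by
  obtain ⟨f, hf, u, hu⟩ := UniqueFactorizationMonoid.exists_prime_factors F hF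
  have h1 : eval p f.prod = 0 := by
    have h2 : eval p f.prod * eval p (u : MvPolynomial σ ℂ) = 0 := by
      rw [← map_mul, hu, hp]
    rcases mul_eq_zero.1 h2 with h | h
    · exact h
    · exact absurd h (u.isUnit.map (eval p)).ne_zero
  rw [map_multiset_prod, Multiset.prod_eq_zero_iff, Multiset.mem_map] at h1
  obtain ⟨a, ha, h3⟩ := h1
  exact ⟨a, hf a ha, (Multiset.dvd_prod ha).trans ⟨u, hu.symm⟩, h3⟩

theorem prime_inl {σ τ : Type} {a : MvPolynomial σ ℂ} (ha : Prime a) :
    Prime (rename (Sum.inl : σ → σ ⊕ τ) a) := by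
  have h1 : Prime (rename (Equiv.ofInjective (Sum.inl : σ → σ ⊕ τ) Sum.inl_injective) a) := by
    have h2 := (MulEquiv.prime_iff
      (renameEquiv ℂ (Equiv.ofInjective (Sum.inl : σ → σ ⊕ τ) Sum.inl_injective)).toMulEquiv
      (p := a)).2
    have h3 := h2 ha
    exact h3
  have h4 := (prime_rename_iff (R := ℂ) (Set.range (Sum.inl : σ → σ ⊕ τ))).2 h1
  rw [rename_rename] at h4
  exact h4

/-- **PCR** -/
theorem t_PCR : Pool.Agent.L0h17.WT.S_PCR := by
  intro σ τ F G H p q hF hG hp hq hH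
  obtain ⟨a, ha, hdvd, hpa⟩ := exists_prime_factor F p hF hp
  obtain ⟨m, r, hr, hFe⟩ := WfDvdMonoid.max_power_factor hF ha.irreducible
  have hm : 1 ≤ m := by
    by_contra h
    have h0 : m = 0 := by omega
    rw [h0, pow_zero, one_mul] at hFe
    rw [hFe] at hdvd
    exact hr hdvd
  have hnd : ¬ rename (Sum.inl : σ → σ ⊕ τ) a ∣
      rename Sum.inl r * rename (Sum.inr : τ → σ ⊕ τ) G := by
    intro h
    rcases (prime_inl ha).dvd_or_dvd h with h | h
    · have h1 := map_dvd (aeval (Sum.elim X fun _ => 0) : MvPolynomial (σ ⊕ τ) ℂ →ₐ[ℂ]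
        MvPolynomial σ ℂ) h
      rw [aeval_rename, aeval_rename] at h1
      have h2 : (Sum.elim X fun _ => 0 : σ ⊕ τ → MvPolynomial σ ℂ) ∘ Sum.inl = X := by
        funext i
        rfl
      rw [h2, aeval_X_left_apply, aeval_X_left_apply] at h1
      exact hr h1
    · have h1 := map_dvd (aeval (Sum.elim (fun i => C (p i)) X) : MvPolynomial (σ ⊕ τ) ℂ →ₐ[ℂ]
        MvPolynomial τ ℂ) h
      rw [aeval_rename, aeval_rename] at h1
      have h2 : (Sum.elim (fun i => C (p i)) X : σ ⊕ τ → MvPolynomial τ ℂ) ∘ Sum.inr = X := by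
        funext i
        rfl
      have h3 : (Sum.elim (fun i => C (p i)) X : σ ⊕ τ → MvPolynomial τ ℂ) ∘ Sum.inl =
          algebraMap ℂ (MvPolynomial τ ℂ) ∘ p := by
        funext i
        rfl
      rw [h2, h3, aeval_X_left_apply, aeval_algebraMap_apply] at h1
      have h4 : aeval p a = (0 : ℂ) := by
        rw [aeval_eq_eval]
        exact hpa
      rw [h4, map_zero, zero_dvd_iff] at h1
      exact hG h1
  have hev : eval (Sum.elim p q) (rename (Sum.inl : σ → σ ⊕ τ) a) = 0 := by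
    rw [eval_rename]
    exact hpa
  have hev2 : eval (Sum.elim p q) (rename Sum.inl r * rename (Sum.inr : τ → σ ⊕ τ) G) = 0 := by
    rw [map_mul, eval_rename, eval_rename]
    have h5 : eval (Sum.elim p q ∘ Sum.inr) G = 0 := hq
    rw [h5, mul_zero]
  have h := Pool.Agent.L0h6.WT.t_CRO (rename Sum.inl a)
    (rename Sum.inl r * rename (Sum.inr : τ → σ ⊕ τ) G) H m (Sum.elim p q) hm (prime_inl ha) hnd
    hev hev2 hH
  rw [hFe, map_mul, map_pow, mul_assoc]
  exact h

end Pool.Agent.L0h55.WT
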